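import Pool.Agent.Helper94.UP.Sheet

/-! Row HC of sheet UP. -/

set_option autoImplicit false

open scoped ZeroAtInfty ContDiff NNReal
open Set Filter Topology MeasureTheory

namespace Pool.Agent.Helper94.UP

open Pool.Agent.Helper94.UF Pool.Agent.Helper94.SR

theorem stHC.{u, v} : ST_HC.{u, v} := by
  intro k X _ _ Γ K f Λ δ hΛ hδ hf hL x
  obtain ⟨t, ht⟩ : ∃ t : ℝ, t = δ * Real.exp (-2) := ⟨_, rfl⟩
  obtain ⟨R, hR⟩ : ∃ R : ℝ, R = Λ / K.c := ⟨_, rfl⟩
  have ht0 : 0 < t := by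
    rw [ht]
    positivity
  have hR0 : 0 ≤ R := by
    rw [hR]
    exact div_nonneg hΛ K.c0.le
  have hRc : R * K.c = Λ := by
    rw [hR]
    exact div_mul_cancel₀ _ K.c0.ne'
  rw [Hf, ← ht, ← hR]
  have hmem : f x + R * t ∈ hvals K f R t (K.Φ x) := by
    refine ⟨x, t, ht0.le, fun γ => ?_, rfl⟩
    rw [shr, sub_sub_cancel_left, abs_neg]
    exact abs_clip_le ht0 _
  have hlow : ∀ s ∈ hvals K f R t (K.Φ x), f x - R * t ≤ s := by
    rintro s ⟨y, r, hr, h, rfl⟩
    have h1 : K.c * ‖x - y‖ ≤ t + r := by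
      refine K.lower x y (t + r) (by linarith) fun γ => ?_
      have h2 := h γ
      have h3 := abs_clip_le ht0 (K.Φ x γ)
      rw [shr] at h2
      rw [abs_le] at h2 h3 ⊢
      constructor <;> linarith [h2.1, h2.2, h3.1, h3.2]
    have h4 := hL x y
    rw [abs_le] at h4
    have h5 : Λ * ‖x - y‖ ≤ R * (t + r) := by
      rw [← hRc, mul_assoc]
      exact mul_le_mul_of_nonneg_left h1 hR0
    linarith [h4.2]
  have hbdd : BddBelow (hvals K f R t (K.Φ x)) := ⟨_, fun s hs => hlow s hs⟩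
  have h1 : sInf (hvals K f R t (K.Φ x)) ≤ f x + R * t := csInf_le hbdd hmem
  have h2 : f x - R * t ≤ sInf (hvals K f R t (K.Φ x)) := le_csInf ⟨_, hmem⟩ hlow
  have h3 : 0 ≤ R * t := mul_nonneg hR0 ht0.le
  rw [abs_le]
  constructor
  · have : f x - R * t ≤ min 1 (sInf (hvals K f R t (K.Φ x))) :=
      le_min (by linarith [(hf x).2]) h2
    linarith
  · have : min 1 (sInf (hvals K f R t (K.Φ x))) ≤ f x + R * t := (min_le_right _ _).trans h1
    linarith

end Pool.Agent.Helper94.UP
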